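import Mathlib

/-!
# MP_d6acc2, module T4: the tuple lemma
-/

namespace Pool.Agent.Helper46.Rel

open Finset

section

variable {X : Type*} {M : ℕ}

/-- The product over the pairs. -/
private noncomputable def Wt (κ : X → X → ℝ) (w : X → ℝ) (J : Fin M → X) : ℝ :=
  (∏ a, w (J a)) * ∏ p ∈ univ.filter (fun p : Fin M × Fin M => p.1 < p.2), κ (J p.1) (J p.2)

private noncomputable def Wl (κ : X → X → ℝ) (w : X → ℝ) (l : Fin M) (J : Fin M → X) : ℝ :=
  (∏ a ∈ univ.erase l, w (J a)) *
    ∏ p ∈ univ.filter (fun p : Fin M × Fin M => p.1 < p.2 ∧ (p.1 ≠ l ∧ p.2 ≠ l)),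
      κ (J p.1) (J p.2)

private lemma split (κ : X → X → ℝ) (hsymm : ∀ i j, κ i j = κ j i) (w : X → ℝ) (l : Fin M)
    (J : Fin M → X) :
    Wt κ w J = Wl κ w l J * (w (J l) * ∏ a ∈ univ.erase l, κ (J l) (J a)) := by
  classical
  unfold Wt Wl
  have h1 : ∏ a, w (J a) = w (J l) * ∏ a ∈ univ.erase l, w (J a) :=
    (mul_prod_erase univ (fun a => w (J a)) (mem_univ l)).symm
  have h2 : ∏ p ∈ univ.filter (fun p : Fin M × Fin M => p.1 < p.2), κ (J p.1) (J p.2) =
      (∏ p ∈ univ.filter (fun p : Fin M × Fin M => p.1 < p.2 ∧ (p.1 ≠ l ∧ p.2 ≠ l)),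
        κ (J p.1) (J p.2)) *
      ∏ p ∈ univ.filter (fun p : Fin M × Fin M => p.1 < p.2 ∧ ¬ (p.1 ≠ l ∧ p.2 ≠ l)),
        κ (J p.1) (J p.2) := by
    rw [← prod_filter_mul_prod_filter_not _ (fun p : Fin M × Fin M => p.1 ≠ l ∧ p.2 ≠ l),
      filter_filter, filter_filter]
  have h3 : ∏ p ∈ univ.filter (fun p : Fin M × Fin M => p.1 < p.2 ∧ ¬ (p.1 ≠ l ∧ p.2 ≠ l)),
      κ (J p.1) (J p.2) = ∏ a ∈ univ.erase l, κ (J l) (J a) := by
    refine prod_nbij' (fun p => if p.1 = l then p.2 else p.1)
      (fun a => if a < l then (a, l) else (l, a)) ?_ ?_ ?_ ?_ ?_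
    · intro p hp
      have h := (mem_filter.1 hp).2
      rw [mem_erase]
      refine ⟨?_, mem_univ _⟩
      split_ifs with h1
      · intro h2
        rw [h1, h2] at h
        exact absurd h.1 (lt_irrefl _)
      · exact h1
    · intro a ha
      have h := (mem_erase.1 ha).1
      rw [mem_filter]
      refine ⟨mem_univ _, ?_⟩
      split_ifs with h1
      · exact ⟨h1, by simp⟩
      · exact ⟨lt_of_le_of_ne (not_lt.1 h1) (Ne.symm h), by simp⟩
    · intro p hp
      have h := (mem_filter.1 hp).2
      obtain ⟨p1, p2⟩ := p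
      simp only at h ⊢
      by_cases h1 : p1 = l
      · rw [if_pos h1]
        have : ¬ p2 < l := by rw [← h1]; exact not_lt.2 h.1.le
        rw [if_neg this, h1]
      · rw [if_neg h1]
        have h2 : p2 = l := by
          by_contra h2
          exact h.2 ⟨h1, h2⟩
        have : p1 < l := by rw [← h2]; exact h.1
        rw [if_pos this, h2]
    · intro a ha
      have h := (mem_erase.1 ha).1
      by_cases h1 : a < l
      · rw [if_pos h1, if_neg h1.ne]
      · rw [if_neg h1, if_pos rfl]
    · intro p hp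
      have h := (mem_filter.1 hp).2
      by_cases h1 : p.1 = l
      · rw [if_pos h1, h1]
      · rw [if_neg h1]
        have h2 : p.2 = l := by
          by_contra h2
          exact h.2 ⟨h1, h2⟩
        rw [h2, hsymm]
  rw [h1, h2, h3]
  ring

private lemma Wl_update [DecidableEq X] (κ : X → X → ℝ) (w : X → ℝ) (l : Fin M)
    (J : Fin M → X) (i : X) : Wl κ w l (Function.update J l i) = Wl κ w l J := by
  unfold Wl
  congr 1
  · refine prod_congr rfl fun a ha => ?_
    rw [Function.update_of_ne (mem_erase.1 ha).1]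
  · refine prod_congr rfl fun p hp => ?_
    have h := (mem_filter.1 hp).2
    rw [Function.update_of_ne h.2.1, Function.update_of_ne h.2.2]

private lemma prod_update [DecidableEq X] (κ : X → X → ℝ) (l : Fin M) (J : Fin M → X) (i i' : X) :
    ∏ a ∈ univ.erase l, κ i' (Function.update J l i a) = ∏ a ∈ univ.erase l, κ i' (J a) := by
  refine prod_congr rfl fun a ha => ?_
  rw [Function.update_of_ne (mem_erase.1 ha).1]

private lemma sum_update [Fintype X] [DecidableEq X] (l : Fin M) (F : (Fin M → X) → ℝ) :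
    ∑ J : Fin M → X, ∑ i, F (Function.update J l i) = Fintype.card X * ∑ J, F J := by
  rw [← Fintype.sum_prod_type']
  have e : ∑ x : (Fin M → X) × X, F (Function.update x.1 l x.2) = ∑ x : (Fin M → X) × X, F x.1 := by
    refine sum_nbij' (fun x => (Function.update x.1 l x.2, x.1 l))
      (fun x => (Function.update x.1 l x.2, x.1 l)) (fun _ _ => mem_univ _) (fun _ _ => mem_univ _)
      ?_ ?_ ?_
    · rintro ⟨J, i⟩ _
      simp
    · rintro ⟨J, i⟩ _
      simp
    · intro x _
      rfl
  rw [e, Fintype.sum_prod_type]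
  simp only [sum_const, card_univ, nsmul_eq_mul]
  rw [mul_sum]

end

theorem tuple_lemma {X 𝒞 : Type*} [Fintype X] [DecidableEq X] [Fintype 𝒞] [DecidableEq 𝒞] {m : ℕ}
    (κ : X → X → ℝ) (hκ : ∀ i j, 0 < κ i j) (hsymm : ∀ i j, κ i j = κ j i)
    (w : X → ℝ) (hw : ∀ i, 0 ≤ w i) [Nonempty X] (E : ℝ) (hE : 0 < E)
    (hS : ∀ J : Fin m → X, E ≤ ∑ i, w i * ∏ a, κ i (J a))
    (c : (Fin (m + 1) → X) → 𝒞) :
    ∃ J : Fin (m + 1) → X, ∀ l : Fin (m + 1),
      E ≤ 2 * (m + 1) * Fintype.card 𝒞 *
        ∑ i ∈ Finset.univ.filter (fun i => c (Function.update J l i) = c J),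
          w i * ∏ a ∈ Finset.univ.erase l, κ i (J a) := by
  classical
  obtain ⟨x0⟩ := ‹Nonempty X›
  have hC : 0 < (Fintype.card 𝒞 : ℝ) := by
    have : 0 < Fintype.card 𝒞 := Fintype.card_pos_iff.2 ⟨c fun _ => x0⟩
    exact_mod_cast this
  have hX : 0 < (Fintype.card X : ℝ) := by
    have : 0 < Fintype.card X := Fintype.card_pos_iff.2 ⟨x0⟩
    exact_mod_cast this
  have hM : (0 : ℝ) < m + 1 := by positivity
  set lam : ℝ := E / (2 * (m + 1) * Fintype.card 𝒞) with hlam
  have hlam0 : 0 < lam := by positivity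
  set S : Fin (m + 1) → (Fin (m + 1) → X) → ℝ := fun l J =>
    ∑ i ∈ univ.filter (fun i => c (Function.update J l i) = c J),
      w i * ∏ a ∈ univ.erase l, κ i (J a) with hSdef
  have hterm : ∀ (l : Fin (m + 1)) (J : Fin (m + 1) → X) (i : X),
      0 ≤ w i * ∏ a ∈ univ.erase l, κ i (J a) := fun l J i =>
    mul_nonneg (hw i) (prod_nonneg fun a _ => (hκ _ _).le)
  have hWl0 : ∀ (l : Fin (m + 1)) (J : Fin (m + 1) → X), 0 ≤ Wl κ w l J := fun l J =>
    mul_nonneg (prod_nonneg fun a _ => hw _) (prod_nonneg fun p _ => (hκ _ _).le)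
  have hWt0 : ∀ J : Fin (m + 1) → X, 0 ≤ Wt κ w J := fun J =>
    mul_nonneg (prod_nonneg fun a _ => hw _) (prod_nonneg fun p _ => (hκ _ _).le)
  set D : ℝ := ∑ J : Fin (m + 1) → X, Wt κ w J with hD
  -- D is positive
  have hD0 : 0 < D := by
    have hex : ∃ i, 0 < w i := by
      by_contra hcon
      push Not at hcon
      have := hS fun _ => x0
      have h0 : ∑ i, w i * ∏ a : Fin m, κ i x0 = 0 :=
        sum_eq_zero fun i _ => by rw [le_antisymm (hcon i) (hw i), zero_mul]
      rw [h0] at this
      linarith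
    obtain ⟨i, hi⟩ := hex
    refine sum_pos' (fun J _ => hWt0 J) ⟨fun _ => i, mem_univ _, ?_⟩
    exact mul_pos (prod_pos fun _ _ => hi) (prod_pos fun _ _ => hκ _ _)
  -- lower bound for D
  have hlow : ∀ l : Fin (m + 1), E * ∑ J : Fin (m + 1) → X, Wl κ w l J ≤ Fintype.card X * D := by
    intro l
    rw [hD, ← sum_update l (Wt κ w), mul_sum]
    refine sum_le_sum fun J _ => ?_
    have e1 : ∀ i, Wt κ w (Function.update J l i) =
        Wl κ w l J * (w i * ∏ a ∈ univ.erase l, κ i (J a)) := by
      intro i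
      rw [split κ hsymm w l, Wl_update, Function.update_self, prod_update]
    simp only [e1]
    rw [← mul_sum, mul_comm]
    refine mul_le_mul_of_nonneg_left ?_ (hWl0 l J)
    refine (hS fun a => J (l.succAbove a)).trans (le_of_eq ?_)
    refine sum_congr rfl fun i _ => ?_
    congr 1
    have := Fin.prod_univ_succAbove (fun a => κ i (J a)) l
    have h2 := mul_prod_erase univ (fun a => κ i (J a)) (mem_univ l)
    rw [← h2] at this
    exact (mul_left_cancel₀ (hκ i (J l)).ne' this).symm
  -- the bad tuples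
  have hbad : ∀ l : Fin (m + 1), ∑ J ∈ univ.filter (fun J => S l J < lam), Wt κ w J ≤
      D / (2 * (m + 1)) := by
    intro l
    have h1 : Fintype.card X * ∑ J ∈ univ.filter (fun J => S l J < lam), Wt κ w J ≤
        (Fintype.card 𝒞 * lam) * ∑ J : Fin (m + 1) → X, Wl κ w l J := by
      rw [sum_filter, ← sum_update l, mul_sum]
      refine sum_le_sum fun J _ => ?_
      have e1 : ∀ i, (if S l (Function.update J l i) < lam then Wt κ w (Function.update J l i)
          else 0) = Wl κ w l J * (if S l (Function.update J l i) < lam then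
            (w i * ∏ a ∈ univ.erase l, κ i (J a)) else 0) := by
        intro i
        split_ifs with h
        · rw [split κ hsymm w l, Wl_update, Function.update_self, prod_update]
        · rw [mul_zero]
      simp only [e1]
      rw [← mul_sum, mul_comm]
      refine mul_le_mul_of_nonneg_right ?_ (hWl0 l J)
      -- sum over the classes
      rw [← sum_fiberwise (g := fun i => c (Function.update J l i))]
      have : ∀ c0 ∈ (univ : Finset 𝒞), ∑ i ∈ univ.filter (fun i => c (Function.update J l i) = c0),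
          (if S l (Function.update J l i) < lam then (w i * ∏ a ∈ univ.erase l, κ i (J a))
            else 0) ≤ lam := by
        intro c0 _
        by_cases hex : ∃ i0, c (Function.update J l i0) = c0 ∧ S l (Function.update J l i0) < lam
        · obtain ⟨i0, hi0, hSi0⟩ := hex
          refine le_trans ?_ hSi0.le
          rw [hSdef]
          simp only [Function.update_idem, hi0, prod_update]
          refine sum_le_sum fun i _ => ?_
          split_ifs
          · exact le_refl _
          · exact hterm l J i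
        · push Not at hex
          rw [sum_eq_zero]
          · exact hlam0.le
          · intro i hi
            rw [if_neg]
            exact not_lt.2 (hex i (mem_filter.1 hi).2)
      calc _ ≤ ∑ _c0 : 𝒞, lam := sum_le_sum this
        _ = Fintype.card 𝒞 * lam := by rw [sum_const, card_univ, nsmul_eq_mul]
    have h2 := hlow l
    have h3 : (Fintype.card 𝒞 * lam) * ∑ J : Fin (m + 1) → X, Wl κ w l J ≤
        Fintype.card X * (D / (2 * (m + 1))) := by
      have e : (Fintype.card 𝒞 : ℝ) * lam = E / (2 * (m + 1)) := by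
        rw [hlam]; field_simp
      rw [e]
      calc E / (2 * (m + 1)) * ∑ J : Fin (m + 1) → X, Wl κ w l J
          = (E * ∑ J : Fin (m + 1) → X, Wl κ w l J) / (2 * (m + 1)) := by ring
        _ ≤ (Fintype.card X * D) / (2 * (m + 1)) := by gcongr
        _ = _ := by ring
    exact le_of_mul_le_mul_left (h1.trans h3) hX
  -- conclusion
  by_contra hcon
  push Not at hcon
  have h1 : D ≤ ∑ l : Fin (m + 1), ∑ J ∈ univ.filter (fun J => S l J < lam), Wt κ w J := by
    rw [hD]
    have h2 : ∀ J : Fin (m + 1) → X, Wt κ w J ≤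
        ∑ l : Fin (m + 1), if S l J < lam then Wt κ w J else 0 := by
      intro J
      obtain ⟨l, hl⟩ := hcon J
      have hl' : S l J < lam := by
        rw [hlam, lt_div_iff₀ (by positivity), mul_comm]
        exact hl
      calc Wt κ w J = if S l J < lam then Wt κ w J else 0 := by rw [if_pos hl']
        _ ≤ _ := single_le_sum (f := fun l => if S l J < lam then Wt κ w J else 0)
            (fun l _ => by
              split_ifs
              · exact hWt0 J
              · exact le_refl _) (mem_univ l)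
    refine (sum_le_sum fun J _ => h2 J).trans (le_of_eq ?_)
    rw [sum_comm]
    refine sum_congr rfl fun l _ => ?_
    rw [sum_filter]
  have h3 : ∑ l : Fin (m + 1), ∑ J ∈ univ.filter (fun J => S l J < lam), Wt κ w J ≤
      ∑ _l : Fin (m + 1), D / (2 * (m + 1)) := sum_le_sum fun l _ => hbad l
  rw [sum_const, card_univ, Fintype.card_fin, nsmul_eq_mul] at h3
  push_cast at h3
  have h4 : ((m : ℝ) + 1) * (D / (2 * (m + 1))) = D / 2 := by field_simp
  rw [h4] at h3
  linarith

end Pool.Agent.Helper46.Rel
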