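import Pool.Agent.Helper60.Rel.Base

/-!
# MP_d6acc2, module T1b: Koebe's quarter theorem, the pre-Schwarzian bound and the derivative bound,
deduced from Bieberbach's inequality
-/

namespace Pool.Agent.Helper46.Rel

open Complex Set Metric Pool.Agent.Helper60.Rel

open scoped Real

/-- Bieberbach's inequality. -/
def Bieb : Prop := ∀ φ : ℂ → ℂ, DifferentiableOn ℂ φ (ball 0 1) → InjOn φ (ball 0 1) →
  φ 0 = 0 → deriv φ 0 = 1 → ‖deriv (deriv φ) 0‖ ≤ 4

theorem koebe_of (hB : Bieb) {φ : ℂ → ℂ} (hd : DifferentiableOn ℂ φ (ball 0 1))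
    (hi : InjOn φ (ball 0 1)) (h0 : φ 0 = 0) (h1 : deriv φ 0 = 1) {w : ℂ}
    (hw : w ∉ φ '' ball 0 1) : 1 / 4 ≤ ‖w‖ := by
  have hmem : (0 : ℂ) ∈ ball (0 : ℂ) 1 := mem_ball_self one_pos
  have hw0 : w ≠ 0 := fun h => hw ⟨0, hmem, by rw [h0, h]⟩
  have hne : ∀ x ∈ ball (0 : ℂ) 1, w - φ x ≠ 0 := fun x hx h =>
    hw ⟨x, hx, (sub_eq_zero.1 h).symm⟩
  have hdx : ∀ x ∈ ball (0 : ℂ) 1, HasDerivAt φ (deriv φ x) x := fun x hx =>
    (hd.differentiableAt (isOpen_ball.mem_nhds hx)).hasDerivAt
  have hd' : DifferentiableOn ℂ (deriv φ) (ball 0 1) := hd.deriv isOpen_ball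
  have hd2 : HasDerivAt (deriv φ) (deriv (deriv φ) 0) 0 :=
    (hd'.differentiableAt (isOpen_ball.mem_nhds hmem)).hasDerivAt
  have hψ : ∀ x ∈ ball (0 : ℂ) 1, HasDerivAt (fun x => w * φ x / (w - φ x))
      (w ^ 2 * deriv φ x / (w - φ x) ^ 2) x := by
    intro x hx
    have h : HasDerivAt (fun x => w * φ x / (w - φ x)) _ x :=
      ((hdx x hx).const_mul w).div ((hdx x hx).const_sub w) (hne x hx)
    refine h.congr_deriv ?_
    ring
  have hψ0 : deriv (fun x => w * φ x / (w - φ x)) 0 = 1 := by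
    rw [(hψ 0 hmem).deriv, h0, h1]
    field_simp
    ring
  have hψinj : InjOn (fun x => w * φ x / (w - φ x)) (ball 0 1) := by
    intro x hx y hy hxy
    apply hi hx hy
    simp only at hxy
    rw [div_eq_div_iff (hne x hx) (hne y hy)] at hxy
    have h2 : w * w * (φ x - φ y) = 0 := by linear_combination hxy
    rcases mul_eq_zero.1 h2 with h3 | h3
    · exact absurd h3 (mul_ne_zero hw0 hw0)
    · exact sub_eq_zero.1 h3
  have hB1 := hB (fun x => w * φ x / (w - φ x))
    (fun x hx => (hψ x hx).differentiableAt.differentiableWithinAt) hψinj (by simp [h0]) hψ0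
  have hev : deriv (fun x => w * φ x / (w - φ x)) =ᶠ[nhds 0]
      fun x => w ^ 2 * deriv φ x / (w - φ x) ^ 2 := by
    filter_upwards [isOpen_ball.mem_nhds hmem] with x hx
    exact (hψ x hx).deriv
  have hsec : deriv (deriv (fun x => w * φ x / (w - φ x))) 0 = deriv (deriv φ) 0 + 2 / w := by
    rw [hev.deriv_eq]
    have h := (hd2.const_mul (w ^ 2)).div (((hdx 0 hmem).const_sub w).pow 2)
      (pow_ne_zero 2 (hne 0 hmem))
    have h' : HasDerivAt (fun x => w ^ 2 * deriv φ x / (w - φ x) ^ 2) _ 0 := h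
    rw [h'.deriv]
    simp only [Pi.pow_apply, h0, h1, sub_zero]
    field_simp
    push_cast
    ring
  rw [hsec] at hB1
  have hB0 := hB φ hd hi h0 h1
  have h3 : ‖2 / w‖ ≤ 8 := by
    calc ‖2 / w‖ = ‖(deriv (deriv φ) 0 + 2 / w) - deriv (deriv φ) 0‖ := by ring_nf
      _ ≤ ‖deriv (deriv φ) 0 + 2 / w‖ + ‖deriv (deriv φ) 0‖ := norm_sub_le _ _
      _ ≤ 8 := by linarith
  rw [norm_div, Complex.norm_ofNat] at h3
  have hwpos : 0 < ‖w‖ := norm_pos_iff.2 hw0
  rw [div_le_iff₀ hwpos] at h3
  linarith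

theorem pre_schwarzian_of (hB : Bieb) {G : ℂ → ℂ} (hd : DifferentiableOn ℂ G LH)
    (hi : InjOn G LH) {ζ : ℂ} (hζ : ζ ∈ LH) :
    ‖deriv (deriv G) ζ / deriv G ζ + 1 / (ζ.re : ℂ)‖ ≤ 2 / (-ζ.re) := by
  have hre : ζ.re < 0 := hζ
  set s : ℝ := -ζ.re with hs
  have hs0 : 0 < s := by linarith
  have hsre : ζ.re = -s := by rw [hs]; ring
  have hsC : (s : ℂ) ≠ 0 := by exact_mod_cast hs0.ne'
  have hopen : IsOpen LH := isOpen_lt continuous_re continuous_const
  by_cases hG : deriv G ζ = 0
  · rw [hG, div_zero, zero_add, hsre]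
    push_cast
    rw [norm_div, norm_neg, norm_one, Complex.norm_real, Real.norm_eq_abs, abs_of_pos hs0]
    gcongr
    norm_num
  · have hmem : (0 : ℂ) ∈ ball (0 : ℂ) 1 := mem_ball_self one_pos
    -- the Cayley map
    set T : ℂ → ℂ := fun x => ζ.im * I - s * ((1 - x) / (1 + x)) with hT
    have hne : ∀ x ∈ ball (0 : ℂ) 1, (1 : ℂ) + x ≠ 0 := by
      intro x hx h
      have : x = -1 := by linear_combination h
      rw [this, mem_ball_zero_iff, norm_neg, norm_one] at hx
      exact lt_irrefl _ hx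
    have hTmem : ∀ x ∈ ball (0 : ℂ) 1, T x ∈ LH := by
      intro x hx
      show (T x).re < 0
      have hx' : ‖x‖ < 1 := mem_ball_zero_iff.1 hx
      have hpos : 0 < ((1 - x) / (1 + x)).re := by
        have e : ((1 - x) / (1 + x)).re = (1 - ‖x‖ ^ 2) / normSq (1 + x) := by
          rw [Complex.div_re, ← Complex.normSq_eq_norm_sq]
          simp only [Complex.normSq_apply, Complex.add_re, Complex.sub_re, Complex.one_re,
            Complex.add_im, Complex.sub_im, Complex.one_im]
          ring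
        rw [e]
        apply div_pos
        · nlinarith [norm_nonneg x]
        · exact Complex.normSq_pos.2 (hne x hx)
      rw [hT]
      simp only [Complex.sub_re, Complex.mul_re, Complex.ofReal_re, Complex.ofReal_im,
        Complex.I_re, Complex.I_im, zero_mul, mul_zero, sub_zero, mul_one]
      nlinarith
    have hT0 : T 0 = ζ := by
      rw [hT]
      apply Complex.ext
      · simp [hs]
      · simp
    have hTd : ∀ x ∈ ball (0 : ℂ) 1, HasDerivAt T (2 * s / (1 + x) ^ 2) x := by
      intro x hx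
      have h : HasDerivAt T _ x :=
        ((((hasDerivAt_id x).const_sub 1).div ((hasDerivAt_id x).const_add 1)
        (hne x hx)).const_mul (s : ℂ)).const_sub ((ζ.im : ℂ) * I)
      refine h.congr_deriv ?_
      simp only [id_eq]
      ring
    have hTd2 : HasDerivAt (fun x : ℂ => 2 * (s : ℂ) / (1 + x) ^ 2) (-4 * (s : ℂ)) 0 := by
      have h := (hasDerivAt_const (0 : ℂ) (2 * (s : ℂ))).div
        (((hasDerivAt_id (0 : ℂ)).const_add 1).pow 2) (by simp)
      have h' : HasDerivAt (fun x : ℂ => 2 * (s : ℂ) / (1 + x) ^ 2) _ 0 := h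
      refine h'.congr_deriv ?_
      simp only [id_eq, Pi.pow_apply]
      norm_num
      ring
    have hGd : ∀ z ∈ LH, HasDerivAt G (deriv G z) z := fun z hz =>
      (hd.differentiableAt (hopen.mem_nhds hz)).hasDerivAt
    have hGd2 : HasDerivAt (deriv G) (deriv (deriv G) ζ) ζ :=
      ((hd.deriv hopen).differentiableAt (hopen.mem_nhds hζ)).hasDerivAt
    set c : ℂ := 1 / (2 * s * deriv G ζ) with hc
    have hc0 : c ≠ 0 := one_div_ne_zero (by simp [hsC, hG])
    have hφ : ∀ x ∈ ball (0 : ℂ) 1, HasDerivAt (fun x => c * (G (T x) - G ζ))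
        (c * (deriv G (T x) * (2 * s / (1 + x) ^ 2))) x := by
      intro x hx
      exact (((hGd _ (hTmem x hx)).comp x (hTd x hx)).sub_const (G ζ)).const_mul c
    have hφinj : InjOn (fun x => c * (G (T x) - G ζ)) (ball 0 1) := by
      intro x hx y hy hxy
      have h1 := mul_left_cancel₀ hc0 hxy
      have h2 : G (T x) = G (T y) := by linear_combination h1
      have h3 := hi (hTmem x hx) (hTmem y hy) h2
      rw [hT] at h3
      simp only at h3
      have h4 : (1 - x) / (1 + x) = (1 - y) / (1 + y) := by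
        have : (s : ℂ) * ((1 - x) / (1 + x)) = s * ((1 - y) / (1 + y)) := by
          linear_combination -h3
        exact mul_left_cancel₀ hsC this
      rw [div_eq_div_iff (hne x hx) (hne y hy)] at h4
      linear_combination (-1 / 2 : ℂ) * h4
    have hB1 := hB (fun x => c * (G (T x) - G ζ))
      (fun x hx => (hφ x hx).differentiableAt.differentiableWithinAt) hφinj (by simp [hT0])
      (by
        rw [(hφ 0 hmem).deriv, hT0, hc]
        field_simp
        ring)
    have hev : deriv (fun x => c * (G (T x) - G ζ)) =ᶠ[nhds 0]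
        fun x => c * (deriv G (T x) * (2 * s / (1 + x) ^ 2)) := by
      filter_upwards [isOpen_ball.mem_nhds hmem] with x hx
      exact (hφ x hx).deriv
    have hsec : deriv (deriv (fun x => c * (G (T x) - G ζ))) 0 =
        2 * s * (deriv (deriv G) ζ / deriv G ζ) - 2 := by
      rw [hev.deriv_eq]
      have hcomp : HasDerivAt (fun x => deriv G (T x))
          (deriv (deriv G) ζ * (2 * s / (1 + 0) ^ 2)) 0 := by
        have hGd2' : HasDerivAt (deriv G) (deriv (deriv G) ζ) (T 0) := by rw [hT0]; exact hGd2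
        exact hGd2'.comp 0 (hTd 0 hmem)
      have h := (hcomp.mul hTd2).const_mul c
      have h' : HasDerivAt (fun x => c * (deriv G (T x) * (2 * s / (1 + x) ^ 2))) _ 0 := h
      rw [h'.deriv, hT0, hc]
      field_simp
      ring
    rw [hsec] at hB1
    have e : (2 * (s : ℂ)) * (deriv (deriv G) ζ / deriv G ζ + 1 / (ζ.re : ℂ)) =
        2 * s * (deriv (deriv G) ζ / deriv G ζ) - 2 := by
      rw [hsre]
      push_cast
      field_simp
      ring
    rw [← e, norm_mul, norm_mul, Complex.norm_ofNat, Complex.norm_real, Real.norm_eq_abs,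
      abs_of_pos hs0] at hB1
    rw [le_div_iff₀ hs0]
    nlinarith

theorem deriv_bound_of (hB : Bieb) {G : ℂ → ℂ} (hd : DifferentiableOn ℂ G LH) (hi : InjOn G LH)
    (hper : ∀ ζ ∈ LH, G (ζ + 2 * π * I) = G ζ + 2 * π * I)
    {ζ : ℂ} (hζ : ζ ∈ LH) (h1 : -1 ≤ ζ.re) : ‖deriv G ζ‖ ≤ 30 / (-ζ.re) := by
  have hre : ζ.re < 0 := hζ
  set s : ℝ := -ζ.re with hs
  have hs0 : 0 < s := by linarith
  have hsC : (s : ℂ) ≠ 0 := by exact_mod_cast hs0.ne'
  have hopen : IsOpen LH := isOpen_lt continuous_re continuous_const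
  by_cases hG : deriv G ζ = 0
  · rw [hG, norm_zero]
    positivity
  · have hmem : (0 : ℂ) ∈ ball (0 : ℂ) 1 := mem_ball_self one_pos
    have hin : ∀ x ∈ ball (0 : ℂ) 1, ζ + s * x ∈ LH := by
      intro x hx
      show (ζ + s * x).re < 0
      have hx' : ‖x‖ < 1 := mem_ball_zero_iff.1 hx
      have : x.re ≤ ‖x‖ := Complex.re_le_norm x
      simp only [Complex.add_re, Complex.mul_re, Complex.ofReal_re, Complex.ofReal_im, zero_mul,
        sub_zero]
      nlinarith
    have hGd : ∀ z ∈ LH, HasDerivAt G (deriv G z) z := fun z hz =>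
      (hd.differentiableAt (hopen.mem_nhds hz)).hasDerivAt
    set c : ℂ := 1 / (s * deriv G ζ) with hc
    have hc0 : c ≠ 0 := one_div_ne_zero (mul_ne_zero hsC hG)
    have hφ : ∀ x ∈ ball (0 : ℂ) 1, HasDerivAt (fun x => c * (G (ζ + s * x) - G ζ))
        (c * (deriv G (ζ + s * x) * s)) x := by
      intro x hx
      have hl : HasDerivAt (fun x : ℂ => ζ + s * x) (s : ℂ) x := by
        simpa using ((hasDerivAt_id x).const_mul (s : ℂ)).const_add ζ
      exact (((hGd _ (hin x hx)).comp x hl).sub_const (G ζ)).const_mul c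
    have hφinj : InjOn (fun x => c * (G (ζ + s * x) - G ζ)) (ball 0 1) := by
      intro x hx y hy hxy
      have h1 := mul_left_cancel₀ hc0 hxy
      have h2 : G (ζ + s * x) = G (ζ + s * y) := by linear_combination h1
      have h3 := hi (hin x hx) (hin y hy) h2
      exact mul_left_cancel₀ hsC (add_left_cancel h3)
    have hper' := hper ζ hζ
    have hζ' : ζ + 2 * π * I ∈ LH := by
      show (ζ + 2 * π * I).re < 0
      simpa using hre
    have hK := koebe_of hB (φ := fun x => c * (G (ζ + s * x) - G ζ))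
      (fun x hx => (hφ x hx).differentiableAt.differentiableWithinAt) hφinj (by simp)
      (by
        rw [(hφ 0 hmem).deriv, hc, mul_zero, add_zero]
        field_simp) (w := c * (2 * π * I))
      (by
        rintro ⟨x, hx, hxe⟩
        have h2 := mul_left_cancel₀ hc0 hxe
        have h3 : G (ζ + s * x) = G (ζ + 2 * π * I) := by
          rw [hper']; linear_combination h2
        have h4 := add_left_cancel (hi (hin x hx) hζ' h3)
        have h5 : ‖(s : ℂ) * x‖ = ‖(2 * π * I : ℂ)‖ := by rw [h4]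
        rw [norm_mul, norm_mul, norm_mul, Complex.norm_real, Complex.norm_real,
          Complex.norm_I, Complex.norm_ofNat, Real.norm_eq_abs, Real.norm_eq_abs,
          abs_of_pos hs0, abs_of_pos Real.pi_pos] at h5
        have hx' : ‖x‖ < 1 := mem_ball_zero_iff.1 hx
        have hpi := Real.pi_gt_three
        have hs1 : s ≤ 1 := by linarith
        nlinarith [norm_nonneg x])
    rw [hc, norm_mul, norm_div, norm_mul, norm_one, norm_mul, norm_mul, Complex.norm_real,
      Complex.norm_real, Complex.norm_I, Complex.norm_ofNat, Real.norm_eq_abs, Real.norm_eq_abs,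
      abs_of_pos hs0, abs_of_pos Real.pi_pos] at hK
    have hGpos : 0 < ‖deriv G ζ‖ := norm_pos_iff.2 hG
    have hpi := Real.pi_lt_d2
    rw [le_div_iff₀ hs0]
    have h6 : 1 / 4 ≤ 2 * π / (s * ‖deriv G ζ‖) := by
      calc 1 / 4 ≤ 1 / (s * ‖deriv G ζ‖) * (2 * π * 1) := hK
        _ = _ := by ring
    rw [le_div_iff₀ (by positivity)] at h6
    linarith

end Pool.Agent.Helper46.Rel
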