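import Pool.Agent.Helper60.Rel.Base

/-!
# MP_d6acc2, module T5: the coefficient bound
-/

namespace Pool.Agent.Helper46.Rel

open Complex Set Metric Pool.Agent.Helper60.Rel Polynomial MeasureTheory

open scoped Real

/-- The point on the circle of radius `exp (-s)`. -/
noncomputable def wp (s τ : ℝ) : ℂ := Complex.exp (-(s : ℂ) + τ * I)

theorem wp_eq (s τ : ℝ) : wp s τ = circleMap 0 (Real.exp (-s)) τ := by
  rw [wp, circleMap_zero, Complex.exp_add]
  push_cast
  rfl

theorem norm_wp (s τ : ℝ) : ‖wp s τ‖ = Real.exp (-s) := by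
  rw [wp, Complex.norm_exp]
  simp

theorem wp_ne (s τ : ℝ) : wp s τ ≠ 0 := Complex.exp_ne_zero _

theorem wp_mem {s : ℝ} (hs : 0 < s) (τ : ℝ) : wp s τ ∈ ball (0 : ℂ) 1 := by
  rw [mem_ball_zero_iff, norm_wp]
  rw [Real.exp_lt_one_iff]; linarith

theorem continuous_wp (s : ℝ) : Continuous (wp s) := by
  unfold wp
  fun_prop

/-- Cauchy's formula for the Taylor coefficients. -/
theorem tc_eq {g : ℂ → ℂ} (hg : DifferentiableOn ℂ g (ball 0 1)) {s : ℝ} (hs : 0 < s) (j : ℕ) :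
    2 * (π : ℂ) * tc g j = ∫ τ in (0 : ℝ)..(2 * π), (wp s τ ^ j)⁻¹ * g (wp s τ) := by
  have hlt : Real.exp (-s) < 1 := by
    have := norm_wp s 0 ▸ mem_ball_zero_iff.1 (wp_mem hs 0)
    exact this
  have h := (hg.mono (closedBall_subset_ball hlt)).circleIntegral_one_div_sub_center_pow_smul
    (Real.exp_pos _) j
  rw [circleIntegral] at h
  have e1 : ∀ τ : ℝ, deriv (circleMap 0 (Real.exp (-s))) τ •
      ((1 / (circleMap 0 (Real.exp (-s)) τ - 0) ^ (j + 1)) • g (circleMap 0 (Real.exp (-s)) τ)) =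
      I * ((wp s τ ^ j)⁻¹ * g (wp s τ)) := by
    intro τ
    rw [deriv_circleMap, ← wp_eq, sub_zero, smul_eq_mul, smul_eq_mul]
    have := wp_ne s τ
    field_simp
    ring
  simp only [e1] at h
  rw [intervalIntegral.integral_const_mul, smul_eq_mul] at h
  unfold tc
  have h2 : I * (2 * (π : ℂ) * (iteratedDeriv j g 0 / (j.factorial : ℂ))) =
      I * ∫ τ in (0 : ℝ)..(2 * π), (wp s τ ^ j)⁻¹ * g (wp s τ) := by
    rw [h]; ring
  exact mul_left_cancel₀ Complex.I_ne_zero h2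

theorem tc_deriv (f : ℂ → ℂ) (j : ℕ) : ((j : ℂ) + 1) * tc f (j + 1) = tc (deriv f) j := by
  unfold tc
  rw [iteratedDeriv_succ', Nat.factorial_succ]
  have : ((j : ℂ) + 1) ≠ 0 := by exact_mod_cast Nat.succ_ne_zero j
  have h2 : (j.factorial : ℂ) ≠ 0 := by exact_mod_cast j.factorial_ne_zero
  push_cast
  field_simp

noncomputable def Ac (f : ℂ → ℂ) (Q : ℂ[X]) (N : ℕ) : ℂ :=
  ∑ i ∈ Finset.range (N + 1), Q.coeff i * tc f (N - i)

theorem Ac_rec (f : ℂ → ℂ) (Q : ℂ[X]) (M : ℕ) :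
    ((M : ℂ) + 1) * Ac f Q (M + 1) = Ac (deriv f) Q M + Ac f (derivative Q) M := by
  unfold Ac
  have e1 : ((M : ℂ) + 1) * ∑ i ∈ Finset.range (M + 1 + 1), Q.coeff i * tc f (M + 1 - i) =
      ∑ i ∈ Finset.range (M + 1 + 1), ((M : ℂ) + 1 - i) * (Q.coeff i * tc f (M + 1 - i)) +
      ∑ i ∈ Finset.range (M + 1 + 1), (i : ℂ) * (Q.coeff i * tc f (M + 1 - i)) := by
    rw [Finset.mul_sum, ← Finset.sum_add_distrib]
    exact Finset.sum_congr rfl fun i _ => by ring
  rw [e1]
  congr 1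
  · rw [Finset.sum_range_succ]
    have : ((M : ℂ) + 1 - ((M + 1 : ℕ) : ℂ)) = 0 := by push_cast; ring
    rw [this, zero_mul, add_zero]
    refine Finset.sum_congr rfl fun i hi => ?_
    have hi' : i ≤ M := by
      have := Finset.mem_range.1 hi; omega
    obtain ⟨d, rfl⟩ := Nat.exists_eq_add_of_le hi'
    rw [show i + d + 1 - i = d + 1 by omega, show i + d - i = d by omega, ← tc_deriv]
    push_cast
    ring
  · rw [Finset.sum_range_succ']
    simp only [Nat.cast_zero, zero_mul, add_zero]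
    refine Finset.sum_congr rfl fun i _ => ?_
    rw [coeff_derivative, show M + 1 - (i + 1) = M - i by omega]
    push_cast
    ring

theorem Ac_sum {α : Type*} (f : ℂ → ℂ) (s : Finset α) (Q : α → ℂ[X]) (N : ℕ) :
    Ac f (∑ a ∈ s, Q a) N = ∑ a ∈ s, Ac f (Q a) N := by
  unfold Ac
  rw [Finset.sum_comm]
  refine Finset.sum_congr rfl fun i _ => ?_
  rw [finsetSum_coeff, Finset.sum_mul]

/-- The integral formula. -/
theorem Ac_integral {g : ℂ → ℂ} (hg : DifferentiableOn ℂ g (ball 0 1)) {s : ℝ} (hs : 0 < s)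
    (Q : ℂ[X]) (M : ℕ) (hQ : Q.natDegree ≤ M) :
    2 * (π : ℂ) * Ac g Q M =
      ∫ τ in (0 : ℝ)..(2 * π), (wp s τ ^ M)⁻¹ * (Q.eval (wp s τ) * g (wp s τ)) := by
  have hgc : Continuous fun τ => g (wp s τ) :=
    hg.continuousOn.comp_continuous (continuous_wp s) fun τ => wp_mem hs τ
  unfold Ac
  rw [Finset.mul_sum]
  have e1 : ∀ i ∈ Finset.range (M + 1), 2 * (π : ℂ) * (Q.coeff i * tc g (M - i)) =
      ∫ τ in (0 : ℝ)..(2 * π), Q.coeff i * ((wp s τ ^ (M - i))⁻¹ * g (wp s τ)) := by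
    intro i _
    rw [intervalIntegral.integral_const_mul, ← tc_eq hg hs]
    ring
  rw [Finset.sum_congr rfl e1, ← intervalIntegral.integral_finsetSum]
  · apply intervalIntegral.integral_congr
    intro τ _
    simp only
    rw [eval_eq_sum_range' (Nat.lt_succ_of_le hQ), Finset.sum_mul, Finset.mul_sum]
    refine Finset.sum_congr rfl fun i hi => ?_
    have hi' : i ≤ M := by
      have := Finset.mem_range.1 hi; omega
    obtain ⟨d, rfl⟩ := Nat.exists_eq_add_of_le hi'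
    rw [show i + d - i = d by omega, pow_add]
    have := wp_ne s τ
    field_simp
  · intro i _
    apply Continuous.intervalIntegrable
    have h1 : Continuous fun τ => (wp s τ ^ (M - i))⁻¹ :=
      ((continuous_wp s).pow _).inv₀ fun τ => pow_ne_zero _ (wp_ne s τ)
    exact continuous_const.mul (h1.mul hgc)

section

variable {f : ℂ → ℂ} {m : ℕ}

/-- The weighted integral. -/
noncomputable def Iw (f : ℂ → ℂ) (z : Fin m → ℂ) (n : ℕ) (s : ℝ) (S : Finset (Fin m)) : ℝ :=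
  ∫ τ in (0 : ℝ)..(2 * π), (∏ l ∈ S, max ‖wp s τ - z l‖ (1 / (n : ℝ))) * ‖deriv f (wp s τ)‖

theorem cont_int (hf : DifferentiableOn ℂ f (ball 0 1)) (z : Fin m → ℂ) (n : ℕ) {s : ℝ}
    (hs : 0 < s) (S : Finset (Fin m)) :
    Continuous fun τ => (∏ l ∈ S, max ‖wp s τ - z l‖ (1 / (n : ℝ))) * ‖deriv f (wp s τ)‖ := by
  have hgc : Continuous fun τ => deriv f (wp s τ) :=
    (hf.deriv isOpen_ball).continuousOn.comp_continuous (continuous_wp s) fun τ => wp_mem hs τ
  refine Continuous.mul ?_ hgc.norm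
  refine continuous_finsetProd _ fun l _ => ?_
  exact (((continuous_wp s).sub continuous_const).norm).max continuous_const

theorem Iw_erase (hf : DifferentiableOn ℂ f (ball 0 1)) (z : Fin m → ℂ) {n : ℕ} (hn : 1 ≤ n)
    {s : ℝ} (hs : 0 < s) (S : Finset (Fin m)) {l : Fin m} (hl : l ∈ S) :
    Iw f z n s (S.erase l) ≤ n * Iw f z n s S := by
  unfold Iw
  rw [← intervalIntegral.integral_const_mul]
  have hn0 : (0 : ℝ) < n := by exact_mod_cast hn
  apply intervalIntegral.integral_mono_on (by positivity)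
    ((cont_int hf z n hs _).intervalIntegrable _ _)
    ((continuous_const.mul (cont_int hf z n hs _)).intervalIntegrable _ _)
  intro τ _
  show (∏ l ∈ S.erase l, max ‖wp s τ - z l‖ (1 / (n : ℝ))) * ‖deriv f (wp s τ)‖ ≤
    n * ((∏ l ∈ S, max ‖wp s τ - z l‖ (1 / (n : ℝ))) * ‖deriv f (wp s τ)‖)
  rw [← Finset.mul_prod_erase S _ hl]
  have h1 : 1 ≤ n * max ‖wp s τ - z l‖ (1 / (n : ℝ)) := by
    have : 1 / (n : ℝ) ≤ max ‖wp s τ - z l‖ (1 / (n : ℝ)) := le_max_right _ _
    calc (1 : ℝ) = n * (1 / n) := by field_simp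
      _ ≤ _ := by gcongr
  have h2 : 0 ≤ (∏ a ∈ S.erase l, max ‖wp s τ - z a‖ (1 / (n : ℝ))) * ‖deriv f (wp s τ)‖ := by
    apply mul_nonneg _ (norm_nonneg _)
    exact Finset.prod_nonneg fun a _ => le_trans (norm_nonneg _) (le_max_left _ _)
  calc (∏ a ∈ S.erase l, max ‖wp s τ - z a‖ (1 / (n : ℝ))) * ‖deriv f (wp s τ)‖
      = 1 * ((∏ a ∈ S.erase l, max ‖wp s τ - z a‖ (1 / (n : ℝ))) * ‖deriv f (wp s τ)‖) := by
        rw [one_mul]
    _ ≤ (n * max ‖wp s τ - z l‖ (1 / (n : ℝ))) *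
        ((∏ a ∈ S.erase l, max ‖wp s τ - z a‖ (1 / (n : ℝ))) * ‖deriv f (wp s τ)‖) :=
        mul_le_mul_of_nonneg_right h1 h2
    _ = _ := by ring

theorem Iw_nonneg (f : ℂ → ℂ) (z : Fin m → ℂ) (n : ℕ) (s : ℝ) (S : Finset (Fin m)) :
    0 ≤ Iw f z n s S := by
  apply intervalIntegral.integral_nonneg (by positivity)
  intro τ _
  apply mul_nonneg _ (norm_nonneg _)
  exact Finset.prod_nonneg fun a _ => le_trans (norm_nonneg _) (le_max_left _ _)

theorem B_bound (hf : DifferentiableOn ℂ f (ball 0 1)) (z : Fin m → ℂ) (n : ℕ)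
    {s : ℝ} (hs : 0 < s) (S : Finset (Fin m)) (M : ℕ) (hM : S.card ≤ M) {K : ℝ}
    (hK : Real.exp (s * M) ≤ K) :
    ‖Ac (deriv f) (∏ l ∈ S, (X - C (z l))) M‖ ≤ K * Iw f z n s S := by
  have hdeg : (∏ l ∈ S, (X - C (z l))).natDegree ≤ M := by
    rw [natDegree_prod_of_monic _ _ fun l _ => monic_X_sub_C _]
    simpa using hM
  have h := Ac_integral (hf.deriv isOpen_ball) hs _ M hdeg
  have hpi : (1 : ℝ) ≤ 2 * π := by
    have := Real.pi_gt_three; linarith
  have h1 : ‖2 * (π : ℂ) * Ac (deriv f) (∏ l ∈ S, (X - C (z l))) M‖ =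
      (2 * π) * ‖Ac (deriv f) (∏ l ∈ S, (X - C (z l))) M‖ := by
    rw [norm_mul, norm_mul, Complex.norm_ofNat, Complex.norm_real, Real.norm_eq_abs,
      abs_of_pos Real.pi_pos]
  have hgc : Continuous fun τ => deriv f (wp s τ) :=
    (hf.deriv isOpen_ball).continuousOn.comp_continuous (continuous_wp s) fun τ => wp_mem hs τ
  have h2 : ‖∫ τ in (0 : ℝ)..(2 * π), (wp s τ ^ M)⁻¹ *
      ((∏ l ∈ S, (X - C (z l))).eval (wp s τ) * deriv f (wp s τ))‖ ≤ K * Iw f z n s S := by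
    refine (intervalIntegral.norm_integral_le_integral_norm (by positivity)).trans ?_
    unfold Iw
    rw [← intervalIntegral.integral_const_mul]
    apply intervalIntegral.integral_mono_on (by positivity)
    · apply Continuous.intervalIntegrable
      have h3 : Continuous fun τ => (wp s τ ^ M)⁻¹ :=
        ((continuous_wp s).pow _).inv₀ fun τ => pow_ne_zero _ (wp_ne s τ)
      exact (h3.mul (((Polynomial.continuous _).comp (continuous_wp s)).mul hgc)).norm
    · exact (continuous_const.mul (cont_int hf z n hs _)).intervalIntegrable _ _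
    · intro τ _
      rw [norm_mul, norm_mul, norm_inv, norm_pow, norm_wp, eval_prod, norm_prod]
      simp only [eval_sub, eval_X, eval_C]
      have h4 : (Real.exp (-s) ^ M)⁻¹ ≤ K := by
        rw [← Real.exp_nat_mul, ← Real.exp_neg]
        refine le_trans (le_of_eq ?_) hK
        ring_nf
      have h5 : ∏ l ∈ S, ‖wp s τ - z l‖ ≤ ∏ l ∈ S, max ‖wp s τ - z l‖ (1 / (n : ℝ)) :=
        Finset.prod_le_prod (fun l _ => norm_nonneg _) fun l _ => le_max_left _ _
      have h6 : 0 ≤ ∏ l ∈ S, ‖wp s τ - z l‖ := Finset.prod_nonneg fun l _ => norm_nonneg _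
      have hK0 : 0 ≤ K := (Real.exp_pos _).le.trans hK
      gcongr
  calc ‖Ac (deriv f) (∏ l ∈ S, (X - C (z l))) M‖
      ≤ (2 * π) * ‖Ac (deriv f) (∏ l ∈ S, (X - C (z l))) M‖ := by
        nlinarith [norm_nonneg (Ac (deriv f) (∏ l ∈ S, (X - C (z l))) M)]
    _ = _ := h1.symm
    _ ≤ _ := by rw [h]; exact h2

/-- The constants. -/
def Cr (K : ℝ) : ℕ → ℝ
  | 0 => K
  | r + 1 => K + (r + 1) * Cr K r

theorem Cr_nonneg {K : ℝ} (hK : 0 ≤ K) (r : ℕ) : 0 ≤ Cr K r := by
  induction r with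
  | zero => exact hK
  | succ r ih => rw [Cr]; positivity

theorem A_bound (hf : DifferentiableOn ℂ f (ball 0 1)) (z : Fin m → ℂ) {n : ℕ} (hn : 1 ≤ n)
    {s : ℝ} (hs : 0 < s) (N1 : ℕ) {K : ℝ} (hK : Real.exp (s * N1) ≤ K) (r : ℕ) :
    ∀ (S : Finset (Fin m)) (N : ℕ), S.card = r → n + r ≤ N → N ≤ N1 →
      ‖Ac f (∏ l ∈ S, (X - C (z l))) N‖ ≤ Cr K r / n * Iw f z n s S := by
  have hn0 : (0 : ℝ) < n := by exact_mod_cast hn
  have hK0 : 0 ≤ K := (Real.exp_pos _).le.trans hK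
  have hKM : ∀ M, M ≤ N1 → Real.exp (s * M) ≤ K := by
    intro M hM
    refine le_trans ?_ hK
    have : (M : ℝ) ≤ N1 := by exact_mod_cast hM
    gcongr
  -- the general step
  have step : ∀ (S : Finset (Fin m)) (M : ℕ), n + S.card ≤ M + 1 → M + 1 ≤ N1 →
      n * ‖Ac f (∏ l ∈ S, (X - C (z l))) (M + 1)‖ ≤ K * Iw f z n s S +
        ∑ l ∈ S, ‖Ac f (∏ a ∈ S.erase l, (X - C (z a))) M‖ := by
    intro S M h1 h2
    have h3 := Ac_rec f (∏ l ∈ S, (X - C (z l))) M
    have h4 : derivative (∏ l ∈ S, (X - C (z l))) =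
        ∑ l ∈ S, ∏ a ∈ S.erase l, (X - C (z a)) := by
      rw [derivative_prod_finset]
      exact Finset.sum_congr rfl fun l _ => by simp
    rw [h4, Ac_sum] at h3
    have h5 : (n : ℝ) ≤ ‖((M : ℂ) + 1)‖ := by
      have : ((M : ℂ) + 1) = ((M + 1 : ℕ) : ℂ) := by push_cast; ring
      rw [this, Complex.norm_natCast]
      exact_mod_cast (by omega : n ≤ M + 1)
    calc n * ‖Ac f (∏ l ∈ S, (X - C (z l))) (M + 1)‖
        ≤ ‖((M : ℂ) + 1)‖ * ‖Ac f (∏ l ∈ S, (X - C (z l))) (M + 1)‖ := by gcongr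
      _ = ‖((M : ℂ) + 1) * Ac f (∏ l ∈ S, (X - C (z l))) (M + 1)‖ := (norm_mul _ _).symm
      _ ≤ _ := by
        rw [h3]
        refine (norm_add_le _ _).trans (add_le_add ?_ (norm_sum_le _ _))
        exact B_bound hf z n hs S M (by omega) (hKM M (by omega))
  induction r with
  | zero =>
    intro S N hS h1 h2
    obtain ⟨M, rfl⟩ : ∃ M, N = M + 1 := ⟨N - 1, by omega⟩
    have h3 := step S M (by omega) h2
    have hS0 : S = ∅ := Finset.card_eq_zero.1 hS
    rw [hS0, Finset.sum_empty, add_zero] at h3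
    rw [hS0, Cr, div_mul_eq_mul_div, le_div_iff₀ hn0]
    linarith
  | succ r ih =>
    intro S N hS h1 h2
    obtain ⟨M, rfl⟩ : ∃ M, N = M + 1 := ⟨N - 1, by omega⟩
    have h3 := step S M (by omega) h2
    have h4 : ∑ l ∈ S, ‖Ac f (∏ a ∈ S.erase l, (X - C (z a))) M‖ ≤
        (r + 1) * Cr K r * Iw f z n s S := by
      have h5 : ∀ l ∈ S, ‖Ac f (∏ a ∈ S.erase l, (X - C (z a))) M‖ ≤
          Cr K r * Iw f z n s S := by
        intro l hl
        refine (ih (S.erase l) M (by rw [Finset.card_erase_of_mem hl]; omega) (by omega)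
          (by omega)).trans ?_
        have h6 := Iw_erase hf z hn hs S hl
        have h7 := Cr_nonneg hK0 r
        calc Cr K r / n * Iw f z n s (S.erase l) ≤ Cr K r / n * (n * Iw f z n s S) := by gcongr
          _ = _ := by field_simp
      refine (Finset.sum_le_sum h5).trans (le_of_eq ?_)
      rw [Finset.sum_const, hS, nsmul_eq_mul]
      push_cast
      ring
    rw [Cr, div_mul_eq_mul_div, le_div_iff₀ hn0]
    linarith

end

theorem coeff_bound {f : ℂ → ℂ} (hf : DifferentiableOn ℂ f (ball 0 1)) (m k : ℕ) :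
    ∃ C : ℝ, ∀ n : ℕ, 1 ≤ n → ∀ z : Fin m → ℂ, (∀ l, ‖z l‖ = Real.exp (-(1 / (n : ℝ)))) →
      ∃ c : ℕ → ℂ, c 0 = 1 ∧ (1 / 4 : ℝ) ^ m ≤ ‖c m‖ ∧
        ∀ j : ℕ, j ≤ k → ∀ s : ℝ, 1 / (2 * (n : ℝ)) ≤ s → s ≤ 1 / (n : ℝ) →
          ‖∑ i ∈ Finset.range (m + 1), c i * tc f (n + j + i)‖ ≤
            C / n * ∫ τ in (0 : ℝ)..(2 * π),
              (∏ l, max ‖Complex.exp (-(s : ℂ) + τ * I) - z l‖ (1 / (n : ℝ))) *
                ‖deriv f (Complex.exp (-(s : ℂ) + τ * I))‖ := by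
  refine ⟨Cr (Real.exp (1 + k + m)) m, fun n hn z hz => ?_⟩
  have hn0 : (0 : ℝ) < n := by exact_mod_cast hn
  have hn1 : (1 : ℝ) ≤ n := by exact_mod_cast hn
  set P : ℂ[X] := ∏ l, (X - C (z l)) with hP
  have hPmonic : P.Monic := monic_prod_of_monic _ _ fun l _ => monic_X_sub_C _
  have hdeg : P.natDegree = m := by
    rw [hP, natDegree_prod_of_monic _ _ fun l _ => monic_X_sub_C _]
    simp
  refine ⟨fun i => P.coeff (m - i), ?_, ?_, ?_⟩
  · simp only [Nat.sub_zero]
    rw [← hdeg]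
    exact hPmonic.coeff_natDegree
  · simp only [Nat.sub_self]
    rw [coeff_zero_eq_eval_zero, hP, eval_prod, norm_prod]
    simp only [eval_sub, eval_X, eval_C, zero_sub, norm_neg, hz]
    rw [Finset.prod_const, Finset.card_univ, Fintype.card_fin]
    have h1 : (1 / 4 : ℝ) ≤ Real.exp (-(1 / (n : ℝ))) := by
      have h2 : Real.exp (-1) ≤ Real.exp (-(1 / (n : ℝ))) := by
        apply Real.exp_le_exp.2
        have : 1 / (n : ℝ) ≤ 1 := by rw [div_le_one hn0]; exact hn1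
        linarith
      have h3 : (1 / 4 : ℝ) ≤ Real.exp (-1) := by
        rw [Real.exp_neg]
        have h4 : Real.exp 1 ≤ 4 := by
          have := Real.exp_one_lt_d9; linarith
        rw [one_div]
        exact inv_anti₀ (Real.exp_pos _) h4
      linarith
    gcongr
  · intro j hj s hs1 hs2
    have hs : 0 < s := lt_of_lt_of_le (by positivity) hs1
    have hK : Real.exp (s * ((n + j + m : ℕ) : ℝ)) ≤ Real.exp (1 + k + m) := by
      apply Real.exp_le_exp.2
      have hj' : (j : ℝ) ≤ k := by exact_mod_cast hj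
      have hs1' : s ≤ 1 := hs2.trans (by rw [div_le_one hn0]; exact hn1)
      have h1 : s * n ≤ 1 := by
        rw [← le_div_iff₀ hn0]; exact hs2
      have h2 : s * (j : ℝ) ≤ k := by
        calc s * (j : ℝ) ≤ 1 * k := by gcongr
          _ = k := one_mul _
      have h3 : s * (m : ℝ) ≤ m := by
        calc s * (m : ℝ) ≤ 1 * m := by gcongr
          _ = m := one_mul _
      push_cast
      rw [mul_add, mul_add]
      linarith
    have h := A_bound hf z hn hs (n + j + m) hK m Finset.univ (n + j + m) (by simp) (by omega)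
      le_rfl
    rw [← hP] at h
    have e : ∑ i ∈ Finset.range (m + 1), P.coeff (m - i) * tc f (n + j + i) =
        Ac f P (n + j + m) := by
      unfold Ac
      have h1 : ∑ i ∈ Finset.range (n + j + m + 1), P.coeff i * tc f (n + j + m - i) =
          ∑ i ∈ Finset.range (m + 1), P.coeff i * tc f (n + j + m - i) := by
        symm
        apply Finset.sum_subset
        · intro i hi
          rw [Finset.mem_range] at hi ⊢
          omega
        · intro i _ hi
          rw [Finset.mem_range] at hi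
          rw [coeff_eq_zero_of_natDegree_lt (by rw [hdeg]; omega), zero_mul]
      rw [h1, ← Finset.sum_range_reflect]
      refine Finset.sum_congr rfl fun i hi => ?_
      have hi' := Finset.mem_range.1 hi
      rw [show m + 1 - 1 - i = m - i by omega, show m - (m - i) = i by omega,
        show n + j + (m - i) = n + j + m - i by omega]
    rw [e]
    exact h

end Pool.Agent.Helper46.Rel
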